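import Mathlib

set_option autoImplicit false

namespace Pool.Agent.Results.MP_88c4e5_co.Quasi

open Set

/-- Lattice terms in the language `(∨, ∧)`. -/
inductive Tm
  | var : ℕ → Tm
  | sup : Tm → Tm → Tm
  | inf : Tm → Tm → Tm

def Tm.eval {L : Type} [Lattice L] (v : ℕ → L) : Tm → L
  | .var n => v n
  | .sup s t => s.eval v ⊔ t.eval v
  | .inf s t => s.eval v ⊓ t.eval v

/-- A quasi-identity `(p₁ = q₁ & … & p_k = q_k) ⇒ lhs = rhs`; an identity has `prem = []`. -/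
structure QI where
  prem : List (Tm × Tm)
  lhs : Tm
  rhs : Tm

def QI.Holds (q : QI) (L : Type) [Lattice L] : Prop :=
  ∀ v : ℕ → L, (∀ e ∈ q.prem, e.1.eval v = e.2.eval v) → q.lhs.eval v = q.rhs.eval v

def QI.Nontrivial (q : QI) : Prop := ∃ (L : Type) (_ : Lattice L), ¬ q.Holds L

/-- A central arrangement: a finite set of linear hyperplanes of `ℝ^d`. -/
def IsArr {d : ℕ} (A : Set (Set (Fin d → ℝ))) : Prop :=
  A.Finite ∧ ∀ H ∈ A, ∃ w : Fin d → ℝ, w ≠ 0 ∧ H = {x | w ⬝ᵥ x = 0}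

/-- Regions: connected components of the complement of the union. -/
def Region {d : ℕ} (A : Set (Set (Fin d → ℝ))) : Type :=
  {R : Set (Fin d → ℝ) // ∃ x ∈ (⋃₀ A)ᶜ, R = connectedComponentIn (⋃₀ A)ᶜ x}

/-- `S(R)`: the hyperplanes met by every segment from `R` to `B`. -/
def sepSet {d : ℕ} (A : Set (Set (Fin d → ℝ))) (B R : Set (Fin d → ℝ)) : Set (Set (Fin d → ℝ)) :=
  {H | H ∈ A ∧ ∀ x ∈ R, ∀ y ∈ B, ∃ z ∈ segment ℝ x y, z ∈ H}

/-- The poset of regions with base region `B`. -/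
def Pos {d : ℕ} (A : Set (Set (Fin d → ℝ))) (_B : Region A) : Type := Region A

instance {d : ℕ} (A : Set (Set (Fin d → ℝ))) (B : Region A) : Preorder (Pos A B) :=
  Preorder.lift fun R : Region A => sepSet A B.1 R.1

/-- The Dedekind-MacNeille completion of the poset of regions. -/
abbrev DM {d : ℕ} (A : Set (Set (Fin d → ℝ))) (B : Region A) : Type := DedekindCut (Pos A B)

variable {d : ℕ}

lemma sign_pos {A : Set (Set (Fin d → ℝ))} {w x y : Fin d → ℝ} (hH : {x | w ⬝ᵥ x = 0} ∈ A)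
    (hx : x ∈ (⋃₀ A)ᶜ) (hy : y ∈ connectedComponentIn (⋃₀ A)ᶜ x) (h : 0 < w ⬝ᵥ x) :
    0 < w ⬝ᵥ y := by
  have hc : Continuous fun z : Fin d → ℝ => w ⬝ᵥ z := by fun_prop
  refine (isPreconnected_connectedComponentIn (x := x) (F := (⋃₀ A)ᶜ)).subset_left_of_subset_union
    (u := {z | 0 < w ⬝ᵥ z}) (v := {z | w ⬝ᵥ z < 0}) (isOpen_lt continuous_const hc)
    (isOpen_lt hc continuous_const) (Set.disjoint_left.2 fun z (a : 0 < w ⬝ᵥ z) (b : w ⬝ᵥ z < 0) => lt_asymm a b)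
    (fun z hz => ?_) ⟨x, mem_connectedComponentIn hx, h⟩ hy
  have : w ⬝ᵥ z ≠ 0 := fun e => connectedComponentIn_subset _ _ hz ⟨_, hH, e⟩
  exact (lt_or_gt_of_ne this).symm

lemma sign_neg {A : Set (Set (Fin d → ℝ))} {w x y : Fin d → ℝ} (hH : {x | w ⬝ᵥ x = 0} ∈ A)
    (hx : x ∈ (⋃₀ A)ᶜ) (hy : y ∈ connectedComponentIn (⋃₀ A)ᶜ x) (h : w ⬝ᵥ x < 0) :
    w ⬝ᵥ y < 0 := by
  have := sign_pos (w := -w) (by simpa using hH) hx hy (by simpa using h)
  simpa using this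

lemma sep_iff {A : Set (Set (Fin d → ℝ))} {w x b : Fin d → ℝ} (hH : {x | w ⬝ᵥ x = 0} ∈ A)
    (hx : x ∈ (⋃₀ A)ᶜ) (hb : b ∈ (⋃₀ A)ᶜ) (h : w ⬝ᵥ b < 0) :
    {x | w ⬝ᵥ x = 0} ∈ sepSet A (connectedComponentIn (⋃₀ A)ᶜ b)
      (connectedComponentIn (⋃₀ A)ᶜ x) ↔ 0 < w ⬝ᵥ x := by
  constructor
  · rintro ⟨-, k⟩
    obtain ⟨z, ⟨s, t, hs, ht, hst, rfl⟩, hz⟩ :=
      k x (mem_connectedComponentIn hx) b (mem_connectedComponentIn hb)
    have h0 : w ⬝ᵥ x ≠ 0 := fun e => hx ⟨_, hH, e⟩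
    simp only [mem_ofPred_eq, dotProduct_add, dotProduct_smul, smul_eq_mul] at hz
    by_contra hc
    have h1 : w ⬝ᵥ x < 0 := lt_of_le_of_ne (not_lt.1 hc) h0
    rcases hs.eq_or_lt with rfl | hs'
    · rw [zero_add] at hst; subst hst; linarith
    · nlinarith [mul_neg_of_pos_of_neg hs' h1, mul_nonpos_of_nonneg_of_nonpos ht h.le]
  · refine fun k => ⟨hH, fun x' hx' y hy => ?_⟩
    have h1 := sign_pos hH hx hx' k
    have h2 := sign_neg hH hb hy h
    have h3 : 0 < w ⬝ᵥ x' - w ⬝ᵥ y := by linarith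
    refine ⟨_, ⟨-(w ⬝ᵥ y) / (w ⬝ᵥ x' - w ⬝ᵥ y), w ⬝ᵥ x' / (w ⬝ᵥ x' - w ⬝ᵥ y),
      div_nonneg (by linarith) h3.le, div_nonneg h1.le h3.le, by field_simp; ring, rfl⟩, ?_⟩
    simp only [mem_ofPred_eq, dotProduct_add, dotProduct_smul, smul_eq_mul]
    field_simp; ring

lemma separate {κ : Type} [Finite κ] (g : κ → Fin d → ℝ) (b : Fin d → ℝ) (hb : ∀ k, g k ⬝ᵥ b = -1)
    (A : Set κ) (p : κ) (hp : g p ∉ convexHull ℝ (g '' A)) :
    ∃ x, (∀ k, g k ⬝ᵥ x ≠ 0) ∧ (∀ a ∈ A, 0 < g a ⬝ᵥ x) ∧ g p ⬝ᵥ x < 0 := by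
  obtain ⟨f, u, h1, h2⟩ := geometric_hahn_banach_closed_point (convex_convexHull ℝ _)
    (((Set.toFinite A).image g).isClosed_convexHull (𝕜 := ℝ)) hp
  let y : Fin d → ℝ := fun i => f fun j => if i = j then 1 else 0
  have hy : ∀ w, w ⬝ᵥ y = f w := fun w =>
    (LinearMap.pi_apply_eq_sum_univ (f : (Fin d → ℝ) →ₗ[ℝ] ℝ) w).symm
  obtain ⟨e, ⟨e1, e2⟩, he⟩ := (Set.Ioo_infinite h2).exists_notMem_finite
    (Set.finite_range fun k => f (g k))
  have key : ∀ k, g k ⬝ᵥ (-e • b - y) = e - f (g k) := fun k => by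
    simp [dotProduct_sub, hb, hy]
  refine ⟨-e • b - y, fun k => ?_, fun a ha => ?_, ?_⟩ <;> rw [key]
  · exact fun h => he ⟨k, by linarith⟩
  · linarith [h1 _ (subset_convexHull ℝ _ ⟨a, ha, rfl⟩)]
  · linarith

lemma extreme {κ ι : Type} [Finite κ] (g : κ → Fin d → ℝ) (hg : Function.Injective g) (Z : Set κ)
    (A : ι → Set κ) (hA : ∀ i, A i ⊆ Z)
    (h : ∀ i j, i ≠ j → ∀ p ∈ Z, g p ∈ convexHull ℝ (g '' (A i ∪ A j))) :
    ∀ p ∈ Z, g p ∈ convexHull ℝ (g '' {q | q ∈ Z ∧ ∀ i j, i ≠ j → q ∈ A i ∪ A j}) := by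
  intro p hp
  have hf := (Set.toFinite Z).image g
  have k := closure_convexHull_extremePoints (hf.isCompact_convexHull (𝕜 := ℝ))
    (convex_convexHull ℝ _)
  rw [((hf.subset extremePoints_convexHull_subset).isClosed_convexHull (𝕜 := ℝ)).closure_eq] at k
  refine convexHull_mono (fun e he => ?_) (k.ge (subset_convexHull ℝ _ ⟨p, hp, rfl⟩))
  obtain ⟨q, hq, rfl⟩ := extremePoints_convexHull_subset he
  refine ⟨q, ⟨hq, fun i j hij => ?_⟩, rfl⟩
  have : convexHull ℝ (g '' Z) = convexHull ℝ (g '' (A i ∪ A j)) :=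
    (convexHull_min (by rintro _ ⟨z, hz, rfl⟩; exact h i j hij z hz) (convex_convexHull ℝ _)).antisymm
      (convexHull_mono (image_mono (union_subset (hA i) (hA j))))
  rw [this] at he
  exact hg.mem_set_image.1 (extremePoints_convexHull_subset he)

lemma conv_neg {κ : Type} (g : κ → Fin d → ℝ) (A : Set κ) (x : Fin d → ℝ)
    (h : ∀ a ∈ A, g a ⬝ᵥ x < 0) {w : Fin d → ℝ} (hw : w ∈ convexHull ℝ (g '' A)) : w ⬝ᵥ x < 0 := by
  refine convexHull_min (t := {w | w ⬝ᵥ x < 0}) (by rintro _ ⟨a, ha, rfl⟩; exact h a ha)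
    (convex_halfSpace_lt ⟨fun a b => add_dotProduct a b x, fun c a => smul_dotProduct c a x⟩ 0) hw

lemma noM {κ α : Type} [Finite κ] [Preorder α] (g : κ → Fin d → ℝ) (hg : Function.Injective g)
    (b : Fin d → ℝ) (hb : ∀ k, g k ⬝ᵥ b = -1) (S : α → Set κ) (hle : ∀ R T, R ≤ T ↔ S R ⊆ S T)
    (hpt : ∀ R, ∃ x, ∀ k, g k ⬝ᵥ x ≠ 0 ∧ (k ∈ S R ↔ 0 < g k ⬝ᵥ x))
    (hreg : ∀ x, (∀ k, g k ⬝ᵥ x ≠ 0) → ∃ R, ∀ k, k ∈ S R ↔ 0 < g k ⬝ᵥ x)
    (x : Fin (d + 3) → DedekindCut α) (u v : DedekindCut α)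
    (hu : ∀ i j, i ≠ j → x i ⊔ x j = u) (hv : ∀ i j, i ≠ j → x i ⊓ x j = v) : u ≤ v := by
  classical
  have hex : ∀ i : Fin (d + 3), ∃ j, i ≠ j := fun i => (exists_ne i).imp fun _ h => h.symm
  have hrel : ∀ (c : DedekindCut α) R T, R ∈ c.left → T ∈ c.right → S R ⊆ S T :=
    fun c R T a b => (hle _ _).1 (Concept.rel_extent_intent a b)
  have hC := extreme g hg {p | ∀ T ∈ u.right, p ∈ S T} (fun i => {p | ∃ R ∈ (x i).left, p ∈ S R})
    (by
      rintro i p ⟨R, hR, hp⟩ T hT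
      obtain ⟨j, hj⟩ := hex i
      rw [← hu i j hj] at hT
      exact hrel _ _ _ hR hT.1 hp)
    (by
      intro i j hij p hp
      by_contra hc
      obtain ⟨y, h1, h2, h3⟩ := separate g b hb _ _ hc
      obtain ⟨T, hT⟩ := hreg y h1
      have : T ∈ u.right := by
        rw [← hu i j hij]
        refine ⟨?_, ?_⟩ <;> rw [← Concept.upperPolar_extent] <;> intro R hR <;>
          refine (hle _ _).2 fun a ha => (hT a).2 (h2 a ?_)
        exacts [Or.inl ⟨R, hR, ha⟩, Or.inr ⟨R, hR, ha⟩]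
      linarith [(hT p).1 (hp T this)])
  have hD := extreme g hg {p | ∀ R ∈ v.left, p ∉ S R} (fun i => {p | ∃ T ∈ (x i).right, p ∉ S T})
    (by
      rintro i p ⟨T, hT, hp⟩ R hR
      obtain ⟨j, hj⟩ := hex i
      rw [← hv i j hj] at hR
      exact fun e => hp (hrel _ _ _ hR.1 hT e))
    (by
      intro i j hij p hp
      by_contra hc
      obtain ⟨y, h1, h2, h3⟩ := separate g b hb _ _ hc
      obtain ⟨R, hR⟩ := hreg (-y) (by simpa using h1)
      have : R ∈ v.left := by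
        rw [← hv i j hij]
        refine ⟨?_, ?_⟩ <;> rw [← Concept.lowerPolar_intent] <;> intro T hT <;>
          refine (hle _ _).2 fun a ha => by_contra fun hn => ?_
        · have := (hR a).1 ha
          have := h2 a (Or.inl ⟨T, hT, hn⟩)
          simp only [dotProduct_neg] at *; linarith
        · have := (hR a).1 ha
          have := h2 a (Or.inr ⟨T, hT, hn⟩)
          simp only [dotProduct_neg] at *; linarith
      exact hp R this ((hR p).2 (by simpa using h3)))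
  rw [← Concept.extent_subset_extent_iff, ← v.lowerPolar_intent]
  intro R hR T hT
  refine (hle _ _).2 fun p0 hp0 => by_contra fun hn => ?_
  obtain ⟨y, hy⟩ := hpt T
  obtain ⟨p, ⟨-, hp⟩, hpT⟩ : ∃ p, (p ∈ {p | ∀ T ∈ u.right, p ∈ S T} ∧ ∀ i j, i ≠ j →
      p ∈ {p | ∃ R ∈ (x i).left, p ∈ S R} ∪ {p | ∃ R ∈ (x j).left, p ∈ S R}) ∧ p ∉ S T := by
    by_contra hc
    push Not at hc
    have := conv_neg g _ (-y) (fun a ha => by simpa using ((hy a).2.1 (hc a ha)))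
      (hC p0 fun T hT => hrel _ _ _ hR hT hp0)
    exact hn ((hy p0).2.2 (by simpa using this))
  have h1 := hD p fun R' hR' e => hpT (hrel _ _ _ hR' hT e)
  rw [convexHull_eq_union] at h1
  simp only [mem_iUnion] at h1
  obtain ⟨t, ht, hind, hpt'⟩ := h1
  have hcard : t.card ≤ d + 1 := by
    have := hind.card_le_finrank_succ
    rw [Fintype.card_coe] at this
    refine this.trans (Nat.succ_le_succ ((Submodule.finrank_le _).trans (by simp)))
  have one : ∀ P : Fin (d + 3) → Prop, (∀ i j, i ≠ j → P i ∨ P j) → ∃ i0, ∀ i, i ≠ i0 → P i :=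
    fun P hP => by
      by_cases e : ∃ i, ¬ P i
      · obtain ⟨i, hi⟩ := e
        exact ⟨i, fun j hj => (hP j i hj).resolve_right hi⟩
      · exact ⟨0, fun i _ => by_contra fun h => e ⟨i, h⟩⟩
  obtain ⟨i0, hi0⟩ := one _ hp
  have : ∀ w ∈ t, ∃ i0, ∃ q, g q = w ∧ ∀ i, i ≠ i0 → ∃ T ∈ (x i).right, q ∉ S T := fun w hw => by
    obtain ⟨q, ⟨-, hq⟩, rfl⟩ := ht hw
    obtain ⟨i1, hi1⟩ := one _ hq
    exact ⟨i1, q, rfl, hi1⟩
  choose! bad hbad using this
  obtain ⟨i, -, hi⟩ := Finset.exists_mem_notMem_of_card_lt_card (s := insert i0 (t.image bad))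
    (t := Finset.univ) (by
      have := Finset.card_insert_le i0 (t.image bad)
      have := Finset.card_image_le (s := t) (f := bad)
      simp only [Finset.card_univ, Fintype.card_fin]; omega)
  simp only [Finset.mem_insert, Finset.mem_image, not_or, not_exists, not_and] at hi
  obtain ⟨R', hR', hp'⟩ := hi0 i hi.1
  obtain ⟨z, hz⟩ := hpt R'
  have := conv_neg id (t : Set (Fin d → ℝ)) z (fun w hw => by
    obtain ⟨q, rfl, hq⟩ := hbad w hw
    obtain ⟨T', hT', hq'⟩ := hq i fun e => hi.2 _ hw e.symm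
    exact lt_of_le_of_ne (not_lt.1 fun e => hq' (hrel _ _ _ hR' hT' ((hz q).2.2 e))) (hz q).1)
    (by simpa using hpt')
  linarith [(hz p).2.1 hp']

def qM (n : ℕ) : QI where
  prem := ((List.range n).product (List.range n)).flatMap fun p => if p.1 = p.2 then [] else
    [(.sup (.var p.1) (.var p.2), .sup (.var 0) (.var 1)),
      (.inf (.var p.1) (.var p.2), .inf (.var 0) (.var 1))]
  lhs := .sup (.var 0) (.var 1)
  rhs := .inf (.var 0) (.var 1)

lemma qM_nontrivial (n : ℕ) : (qM n).Nontrivial := by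
  let v : ℕ → Submodule ℝ (ℝ × ℝ) := fun i =>
    LinearMap.ker (LinearMap.snd ℝ ℝ ℝ - (i : ℝ) • LinearMap.fst ℝ ℝ ℝ)
  have hm : ∀ i p, p ∈ v i ↔ p.2 - i * p.1 = 0 := fun i p => by simp [v]
  have h1 : ∀ i j, i ≠ j → v i ⊔ v j = ⊤ := fun i j hij => by
    have : (i : ℝ) - j ≠ 0 := sub_ne_zero.2 (by exact_mod_cast hij)
    refine eq_top_iff.2 fun p _ => Submodule.mem_sup.2
      ⟨((p.2 - j * p.1) / (i - j), i * ((p.2 - j * p.1) / (i - j))), by simp [hm],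
        p - ((p.2 - j * p.1) / (i - j), i * ((p.2 - j * p.1) / (i - j))), ?_, by simp⟩
    rw [hm]; simp only [Prod.snd_sub, Prod.fst_sub]; field_simp; ring
  have h2 : ∀ i j, i ≠ j → v i ⊓ v j = ⊥ := fun i j hij => by
    have : (i : ℝ) - j ≠ 0 := sub_ne_zero.2 (by exact_mod_cast hij)
    refine eq_bot_iff.2 fun p hp => ?_
    have a := (hm _ _).1 hp.1
    have b := (hm _ _).1 hp.2
    have c : p.1 = 0 := (mul_eq_zero.1 (show ((i : ℝ) - j) * p.1 = 0 by linarith)).resolve_left this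
    exact Prod.ext c (by simpa [c] using a)
  refine ⟨Submodule ℝ (ℝ × ℝ), inferInstance, fun h => ?_⟩
  have := h v (by
    intro e he
    simp only [qM, List.mem_flatMap] at he
    obtain ⟨p, -, he⟩ := he
    split_ifs at he with hp
    · simp at he
    · simp only [List.mem_cons, List.not_mem_nil, or_false] at he
      rcases he with rfl | rfl
      · simp only [Tm.eval]; rw [h1 _ _ hp, h1 0 1 (by simp)]
      · simp only [Tm.eval]; rw [h2 _ _ hp, h2 0 1 (by simp)])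
  simp only [qM, Tm.eval] at this
  rw [h1 0 1 (by simp), h2 0 1 (by simp)] at this
  exact absurd this top_ne_bot

lemma qM_holds (A : Set (Set (Fin d → ℝ))) (hA : IsArr A) (B : Region A) :
    (qM (d + 3)).Holds (DM A B) := by
  obtain ⟨B, b, hb, rfl⟩ := B
  have : ∀ H : A, ∃ w : Fin d → ℝ, H.1 = {x | w ⬝ᵥ x = 0} ∧ w ⬝ᵥ b = -1 := fun H => by
    obtain ⟨w, -, hw⟩ := hA.2 _ H.2
    have h0 : w ⬝ᵥ b ≠ 0 := fun e => hb ⟨_, H.2, by rw [hw]; exact e⟩
    refine ⟨(-(w ⬝ᵥ b)⁻¹) • w, ?_, by simp [h0]⟩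
    rw [hw]; ext x; simp [h0]
  choose g hg hgb using this
  have hgA : ∀ H : A, {x | g H ⬝ᵥ x = 0} ∈ A := fun H => hg H ▸ H.2
  have := hA.1.to_subtype
  intro v hv
  have key : ∀ x ∈ (⋃₀ A)ᶜ, ∀ H : A, H.1 ∈ sepSet A (connectedComponentIn (⋃₀ A)ᶜ b)
      (connectedComponentIn (⋃₀ A)ᶜ x) ↔ 0 < g H ⬝ᵥ x := fun x hx H => by
    rw [hg H]; exact sep_iff (hgA H) hx hb (by rw [hgb]; norm_num)
  refine le_antisymm (noM (α := Pos A ⟨_, b, hb, rfl⟩) g
    (fun H H' e => Subtype.ext (by rw [hg H, hg H', e])) b hgb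
    (fun R => {H | H.1 ∈ sepSet A (connectedComponentIn (⋃₀ A)ᶜ b) R.1})
    (fun R T => ⟨fun h H hH => (show sepSet A _ R.1 ⊆ sepSet A _ T.1 from h) hH,
      fun h H hH => h (a := ⟨H, hH.1⟩) hH⟩) ?_ ?_
    (fun i => v i) _ _ (fun i j hij => ?_) (fun i j hij => ?_)) inf_le_sup
  · rintro ⟨R, x, hx, rfl⟩
    exact ⟨x, fun H => ⟨fun e => hx ⟨_, hgA H, e⟩, key x hx H⟩⟩
  · intro x hx
    have : x ∈ (⋃₀ A)ᶜ := fun ⟨H, hH, e⟩ => hx ⟨H, hH⟩ (by rw [show H = _ from hg ⟨H, hH⟩] at e; exact e)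
    exact ⟨⟨_, x, this, rfl⟩, key x this⟩
  · refine hv (.sup (.var i) (.var j), .sup (.var 0) (.var 1)) ?_
    simp only [qM, List.mem_flatMap]
    exact ⟨(i, j), by simp, by simp [Fin.val_inj, hij]⟩
  · refine hv (.inf (.var i) (.var j), .inf (.var 0) (.var 1)) ?_
    simp only [qM, List.mem_flatMap]
    exact ⟨(i, j), by simp, by simp [Fin.val_inj, hij]⟩

lemma embed {L : Type} [Lattice L] (P : Finset L) (hP : P.Nonempty) :
    ∃ (d : ℕ) (A : Set (Set (Fin d → ℝ))) (B : Region A) (ε : L → DM A B), 1 ≤ d ∧ IsArr A ∧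
      (∀ a ∈ P, ∀ b ∈ P, ε a = ε b → a = b) ∧
      (∀ a ∈ P, ∀ b ∈ P, a ⊔ b ∈ P → ε (a ⊔ b) = ε a ⊔ ε b) ∧
      ∀ a ∈ P, ∀ b ∈ P, a ⊓ b ∈ P → ε (a ⊓ b) = ε a ⊓ ε b := by
  classical
  let e := Fintype.equivFin (P ⊕ P)
  set d := Fintype.card (P ⊕ P)
  let n : ℝ := Fintype.card P
  have hn : 0 ≤ n := Nat.cast_nonneg _
  let F : (P ⊕ P) ⊕ (P ⊕ P) → (P ⊕ P → ℝ) → ℝ := fun k x =>
    match k with
    | .inl i => x i
    | .inr (.inl j) => (n + 1) * x (.inl j) - ∑ m : P, if j.1 ≤ m.1 then 0 else x (.inr m)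
    | .inr (.inr m) => (n + 1) * x (.inr m) - ∑ j : P, if j.1 ≤ m.1 then 0 else x (.inl j)
  have hF : ∀ k, ∃ w : Fin d → ℝ, ∀ x, w ⬝ᵥ x = F k (x ∘ e) := by
    have h0 : ∀ i, ∃ w : Fin d → ℝ, ∀ x, w ⬝ᵥ x = x (e i) := fun i =>
      ⟨Pi.single (e i) 1, fun x => by simp⟩
    choose s hs using h0
    rintro (i | j | m)
    · exact ⟨s i, hs i⟩
    · refine ⟨(n + 1) • s (.inl j) - ∑ m : P, if j.1 ≤ m.1 then 0 else s (.inr m), fun x => ?_⟩
      simp only [F, sub_dotProduct, smul_dotProduct, sum_dotProduct, hs, smul_eq_mul,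
        Function.comp_apply]
      congr 1
      exact Finset.sum_congr rfl fun m _ => by split_ifs <;> simp [hs]
    · refine ⟨(n + 1) • s (.inr m) - ∑ j : P, if j.1 ≤ m.1 then 0 else s (.inl j), fun x => ?_⟩
      simp only [F, sub_dotProduct, smul_dotProduct, sum_dotProduct, hs, smul_eq_mul,
        Function.comp_apply]
      congr 1
      exact Finset.sum_congr rfl fun m _ => by split_ifs <;> simp [hs]
  choose w hw using hF
  have sle : ∀ f : P → ℝ, (∀ i, f i ≤ 1) → ∀ i0, ∑ i, f i ≤ f i0 + n := fun f hf i0 => by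
    rw [← Finset.add_sum_erase _ _ (Finset.mem_univ i0)]
    have := Finset.sum_le_card_nsmul (Finset.univ.erase i0) f 1 fun i _ => hf i
    have h2 : ((Finset.univ.erase i0).card : ℝ) ≤ n := Nat.cast_le.2 (Finset.card_le_univ _)
    simp only [nsmul_eq_mul, mul_one] at this
    linarith
  have sge : ∀ f : P → ℝ, (∀ i, -1 ≤ f i) → ∀ i0, f i0 - n ≤ ∑ i, f i := fun f hf i0 => by
    have := sle (fun i => - f i) (fun i => by linarith [hf i]) i0
    rw [Finset.sum_neg_distrib] at this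
    linarith
  have hFb : ∀ k, F k (fun _ => -1) < 0 := by
    rintro (i | j | m)
    · simp [F]
    · have := sge (fun m : P => if j.1 ≤ m.1 then 0 else -1) (fun i => by split_ifs <;> simp) j
      simp only [le_refl, if_true] at this
      simp only [F]; linarith
    · have := sge (fun j : P => if j.1 ≤ m.1 then 0 else -1) (fun i => by split_ifs <;> simp) m
      simp only [le_refl, if_true] at this
      simp only [F]; linarith
  let A : Set (Set (Fin d → ℝ)) := range fun k => {x | w k ⬝ᵥ x = 0}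
  have hc : ∀ x, (∀ k, F k (x ∘ e) ≠ 0) ↔ x ∈ (⋃₀ A)ᶜ := fun x =>
    ⟨by rintro h ⟨_, ⟨k, rfl⟩, hk⟩; exact h k (hw k x ▸ hk),
      fun h k hk => h ⟨_, ⟨k, rfl⟩, (hw k x).trans hk⟩⟩
  have hb : (fun _ => -1) ∈ (⋃₀ A)ᶜ := (hc _).1 fun k => (hFb k).ne
  let B : Region A := ⟨_, _, hb, rfl⟩
  have hreg : ∀ R : Pos A B, ∃ x : P ⊕ P → ℝ, ∀ k, F k x ≠ 0 ∧
      ({x | w k ⬝ᵥ x = 0} ∈ sepSet A B.1 R.1 ↔ 0 < F k x) := by
    rintro ⟨R, x, hx, rfl⟩
    exact ⟨x ∘ e, fun k => ⟨(hc x).2 hx k, by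
      rw [← hw]; exact sep_iff ⟨k, rfl⟩ hx hb (by rw [hw]; exact hFb k)⟩⟩
  choose pt hpt using hreg
  have hle : ∀ R T : Pos A B, R ≤ T ↔ ∀ k, 0 < F k (pt R) → 0 < F k (pt T) := fun R T =>
    ⟨fun h k hk => (hpt T k).2.1 (h ((hpt R k).2.2 hk)), fun h H hH => by
      obtain ⟨k, rfl⟩ := hH.1
      exact (hpt T k).2.2 (h k ((hpt R k).2.1 hH))⟩
  let X : L → P ⊕ P → ℝ := fun a i =>
    match i with
    | .inl j => if j.1 ≤ a then 2 * (n + 1) else -1
    | .inr m => if a ≤ m.1 then -(2 * (n + 1)) else 1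
  let pos : L → (P ⊕ P) ⊕ (P ⊕ P) → Prop := fun a k =>
    match k with
    | .inl (.inl j) => j.1 ≤ a
    | .inl (.inr m) => ¬ a ≤ m.1
    | .inr (.inl _) => True
    | .inr (.inr _) => False
  have hX : ∀ a ∈ P, ∀ k, (pos a k → 0 < F k (X a)) ∧ (¬ pos a k → F k (X a) < 0) := by
    rintro a ha ((j | m) | j | m)
    · simp only [pos, F, X]; split_ifs with h <;> simp [h]; linarith
    · simp only [pos, F, X]; split_ifs with h <;> simp [h]; linarith
    · have := sle (fun m : P => if j.1 ≤ m.1 then 0 else X a (.inr m))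
        (fun i => by simp only [X]; split_ifs <;> linarith) ⟨a, ha⟩
      refine ⟨fun _ => ?_, fun h => (h trivial).elim⟩
      simp only [F]
      by_cases h : j.1 ≤ a <;> simp only [X, h, le_refl, if_true, if_false] at this ⊢ <;> nlinarith
    · have := sge (fun j : P => if j.1 ≤ m.1 then 0 else X a (.inl j))
        (fun i => by simp only [X]; split_ifs <;> linarith) ⟨a, ha⟩
      refine ⟨fun h => h.elim, fun _ => ?_⟩
      simp only [F]
      by_cases h : a ≤ m.1 <;> simp only [X, h, le_refl, if_true, if_false] at this ⊢ <;> nlinarith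
  have hR : ∀ a ∈ P, ∃ R : Pos A B, ∀ k, 0 < F k (pt R) ↔ pos a k := fun a ha => by
    have h1 : (X a ∘ e.symm) ∘ e = X a := by ext; simp
    have h2 : X a ∘ e.symm ∈ (⋃₀ A)ᶜ := (hc _).1 fun k => by
      rw [h1]
      by_cases h : pos a k
      exacts [((hX a ha k).1 h).ne', ((hX a ha k).2 h).ne]
    refine ⟨⟨_, _, h2, rfl⟩, fun k => ?_⟩
    refine ((hpt _ k).2.symm.trans (sep_iff (A := A) ⟨k, rfl⟩ h2 hb (by rw [hw]; exact hFb k))).trans ?_
    rw [hw, h1]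
    exact ⟨fun h => by_contra fun h' => lt_asymm h ((hX a ha k).2 h'), (hX a ha k).1⟩
  have : Nonempty (Pos A B) := ⟨B⟩
  choose! r hr using hR
  have mono : ∀ a ∈ P, ∀ b ∈ P, r a ≤ r b ↔ a ≤ b := fun a ha b hb => by
    simp only [hle, hr a ha, hr b hb]
    refine ⟨fun h => h (.inl (.inl ⟨a, ha⟩)) le_rfl, ?_⟩
    rintro h ((j | m) | j | m)
    exacts [fun k => k.trans h, fun k k' => k (h.trans k'), id, id]
  refine ⟨d, A, B, fun a => .principal (r a), ?_, ⟨finite_range _, ?_⟩, fun a ha b hb h => ?_,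
    fun a ha b hb hab => DedekindCut.ext' (Subset.antisymm ?_ ?_),
    fun a ha b hb hab => DedekindCut.ext (Subset.antisymm ?_ ?_)⟩
  · have := hP.coe_sort
    exact Fintype.card_pos
  · rintro _ ⟨k, rfl⟩
    refine ⟨w k, fun h => ?_, rfl⟩
    have := hw k fun _ => -1
    rw [h, zero_dotProduct] at this
    exact (hFb k).ne this.symm
  · exact le_antisymm ((mono a ha b hb).1 (DedekindCut.principal_le_principal.1 h.le))
      ((mono b hb a ha).1 (DedekindCut.principal_le_principal.1 h.ge))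
  · exact fun T hT => ⟨((mono _ ha _ hab).2 le_sup_left).trans hT,
      ((mono _ hb _ hab).2 le_sup_right).trans hT⟩
  · rintro T ⟨h1 : r a ≤ T, h2 : r b ≤ T⟩
    show r (a ⊔ b) ≤ T
    simp only [hle, hr a ha, hr b hb, hr _ hab] at h1 h2 ⊢
    have km : ∀ m : P, ¬ a ⊔ b ≤ m.1 → 0 < pt T (.inr m) := fun m k => by
      by_cases h : a ≤ m.1
      · exact h2 (.inl (.inr m)) fun h' => k (sup_le h h')
      · exact h1 (.inl (.inr m)) h
    rintro ((j | m) | j | m)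
    · intro k
      have k1 := h1 (.inr (.inl j)) trivial
      have k2 : 0 ≤ ∑ m : P, if j.1 ≤ m.1 then 0 else pt T (.inr m) :=
        Finset.sum_nonneg fun m _ => by
          split_ifs with h
          exacts [le_rfl, (km m fun h' => h (le_trans k h')).le]
      simp only [F] at k1 ⊢
      by_contra h
      nlinarith
    exacts [km m, h1 (.inr (.inl j)), h1 (.inr (.inr m))]
  · exact fun T hT => ⟨le_trans hT ((mono _ hab _ ha).2 inf_le_left),
      le_trans hT ((mono _ hab _ hb).2 inf_le_right)⟩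
  · rintro T ⟨h1 : T ≤ r a, h2 : T ≤ r b⟩
    show T ≤ r (a ⊓ b)
    simp only [hle, hr a ha, hr b hb, hr _ hab] at h1 h2 ⊢
    have kj : ∀ j : P, 0 < pt T (.inl j) → j.1 ≤ a ⊓ b := fun j k =>
      le_inf (h1 (.inl (.inl j)) k) (h2 (.inl (.inl j)) k)
    rintro ((j | m) | j | m)
    · exact kj j
    · intro k (k' : a ⊓ b ≤ m.1)
      have k1 : ¬ 0 < F (.inr (.inr m)) (pt T) := h1 (.inr (.inr m))
      have k2 : (∑ j : P, if j.1 ≤ m.1 then 0 else pt T (.inl j)) ≤ 0 :=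
        Finset.sum_nonpos fun j _ => by
          split_ifs with h
          exacts [le_rfl, not_lt.1 fun h' => h ((kj j h').trans k')]
      simp only [F] at k1 k
      nlinarith
    exacts [h1 (.inr (.inl j)), h1 (.inr (.inr m))]

def Tm.vals {L : Type} [Lattice L] (v : ℕ → L) : Tm → List L
  | .var n => [v n]
  | .sup s t => (s.eval v ⊔ t.eval v) :: (s.vals v ++ t.vals v)
  | .inf s t => (s.eval v ⊓ t.eval v) :: (s.vals v ++ t.vals v)

lemma Tm.eval_mem {L : Type} [Lattice L] (v : ℕ → L) (t : Tm) : t.eval v ∈ t.vals v := by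
  cases t <;> simp [Tm.eval, Tm.vals]

theorem result :
    (∀ q : QI, q.Nontrivial → ∃ d : ℕ, 1 ≤ d ∧ ∃ A : Set (Set (Fin d → ℝ)), IsArr A ∧
      ∃ B : Region A, ¬ q.Holds (DM A B)) ∧
    (∀ d : ℕ, ∃ q : QI, q.Nontrivial ∧ ∀ A : Set (Set (Fin d → ℝ)), IsArr A →
      ∀ B : Region A, q.Holds (DM A B)) := by
  classical
  refine ⟨?_, fun d => ⟨qM (d + 3), qM_nontrivial _, qM_holds⟩⟩
  rintro q ⟨L, _, hq⟩
  simp only [QI.Holds, not_forall] at hq
  obtain ⟨v, hv, hq⟩ := hq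
  obtain ⟨d, A, B, ε, hd, hA, h1, h2, h3⟩ := embed
    ((((q.lhs, q.rhs) :: q.prem).flatMap fun e => e.1.vals v ++ e.2.vals v).toFinset)
    ⟨q.lhs.eval v, by simp [Tm.eval_mem]⟩
  set P := (((q.lhs, q.rhs) :: q.prem).flatMap fun e => e.1.vals v ++ e.2.vals v).toFinset with hP
  have key : ∀ t : Tm, (∀ a ∈ t.vals v, a ∈ P) → t.eval (fun n => ε (v n)) = ε (t.eval v) := by
    intro t
    induction t with
    | var n => exact fun _ => rfl
    | sup s t hs ht =>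
      intro h
      simp only [Tm.vals, List.mem_cons, List.mem_append] at h
      simp only [Tm.eval]
      rw [hs fun a ha => h a (.inr (.inl ha)), ht fun a ha => h a (.inr (.inr ha)),
        h2 _ (h _ (.inr (.inl (s.eval_mem v)))) _ (h _ (.inr (.inr (t.eval_mem v)))) (h _ (.inl rfl))]
    | inf s t hs ht =>
      intro h
      simp only [Tm.vals, List.mem_cons, List.mem_append] at h
      simp only [Tm.eval]
      rw [hs fun a ha => h a (.inr (.inl ha)), ht fun a ha => h a (.inr (.inr ha)),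
        h3 _ (h _ (.inr (.inl (s.eval_mem v)))) _ (h _ (.inr (.inr (t.eval_mem v)))) (h _ (.inl rfl))]
  have mem : ∀ e ∈ (q.lhs, q.rhs) :: q.prem,
      (∀ a ∈ e.1.vals v, a ∈ P) ∧ ∀ a ∈ e.2.vals v, a ∈ P := fun e he =>
    ⟨fun a ha => List.mem_toFinset.2 (List.mem_flatMap.2 ⟨e, he, List.mem_append_left _ ha⟩),
      fun a ha => List.mem_toFinset.2 (List.mem_flatMap.2 ⟨e, he, List.mem_append_right _ ha⟩)⟩
  refine ⟨d, hd, A, hA, B, fun h => hq ?_⟩
  have m0 := mem _ List.mem_cons_self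
  have := h (fun n => ε (v n)) fun e he => by
    have m := mem e (List.mem_cons_of_mem _ he)
    rw [key _ m.1, key _ m.2, hv e he]
  rw [key _ m0.1, key _ m0.2] at this
  exact h1 _ (m0.1 _ (Tm.eval_mem _ _)) _ (m0.2 _ (Tm.eval_mem _ _)) this

end Pool.Agent.Results.MP_88c4e5_co.Quasi
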